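import Mathlib

namespace Pool.Agent.Results.MP_fbf3cb_al.Var

open scoped commutatorElement

universe u

/-- `G` satisfies all laws in `W`. -/
def Sat (W : Set (FreeGroup ℕ)) (G : Type u) [Group G] : Prop :=
  ∀ w ∈ W, ∀ f : ℕ → G, FreeGroup.lift f w = 1

/-- `G` is isomorphic to the derived subgroup of some group. -/
def Integrable (G : Type u) [Group G] : Prop :=
  ∃ (H : Type u) (_ : Group H), Nonempty (commutator H ≃* G)

open FreeGroup in
def W : Set (FreeGroup ℕ) := {of 0 ^ 3, ⁅⁅of 0, of 1⁆, of 2⁆}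

class P (G : Type u) [Group G] : Prop where
  cube : ∀ x : G, x ^ 3 = 1
  cen : ∀ x y z : G, ⁅x, y⁆ * z = z * ⁅x, y⁆

section
variable {G : Type u} [Group G] [P G]

theorem c_mul (x y z : G) : ⁅x * y, z⁆ = ⁅x, z⁆ * ⁅y, z⁆ := by
  have : ⁅x * y, z⁆ = x * ⁅y, z⁆ * x⁻¹ * ⁅x, z⁆ := by simp only [commutatorElement_def]; group
  rw [this, ← P.cen y z x, mul_inv_cancel_right, P.cen]

theorem c_inv (x y : G) : ⁅y, x⁆ = ⁅x, y⁆⁻¹ := (commutatorElement_inv x y).symm

theorem mul_c (x y z : G) : ⁅z, x * y⁆ = ⁅z, x⁆ * ⁅z, y⁆ := by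
  rw [c_inv, c_mul, mul_inv_rev, ← c_inv, ← c_inv, P.cen]

theorem hZ {z : G} (hz : z ∈ commutator G) : z ∈ Subgroup.center G :=
  (Subgroup.commutator_le.2 fun x _ y _ => Subgroup.mem_center_iff.2 fun g => (P.cen x y g).symm) hz

theorem z_c {z : G} (hz : z ∈ commutator G) (x : G) : ⁅z, x⁆ = 1 :=
  commutatorElement_eq_one_iff_mul_comm.2 (Subgroup.mem_center_iff.1 (hZ hz) x).symm

theorem cm (x y : G) : ⁅x, y⁆ ∈ commutator G :=
  Subgroup.commutator_mem_commutator (Subgroup.mem_top x) (Subgroup.mem_top y)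

theorem c_z {z : G} (hz : z ∈ commutator G) (x : G) : ⁅x, z⁆ = 1 := by
  rw [c_inv, z_c hz, inv_one]

/-- Baer's abelian group. -/
def L (G : Type u) := G

def v (x : L G) : G := x
def l (x : G) : L G := x

instance : Add (L G) := ⟨fun x y => l (v x * v y * ⁅v x, v y⁆)⟩
instance : Zero (L G) := ⟨l 1⟩
instance : Neg (L G) := ⟨fun x => l (v x)⁻¹⟩

instance : AddCommGroup (L G) where
  nsmul := nsmulRec
  zsmul := zsmulRec
  add_assoc x y z := by
    show v x * v y * ⁅v x, v y⁆ * v z * ⁅v x * v y * ⁅v x, v y⁆, v z⁆ =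
      v x * (v y * v z * ⁅v y, v z⁆) * ⁅v x, v y * v z * ⁅v y, v z⁆⁆
    rw [c_mul, c_mul, mul_c, mul_c, z_c (cm _ _), c_z (cm _ _), mul_assoc _ _ (v z), P.cen]
    simp only [mul_assoc, mul_one]
    rw [P.cen (v y) (v z), mul_assoc]
  zero_add x := by
    show 1 * v x * ⁅(1 : G), v x⁆ = v x
    simp
  add_zero x := by
    show v x * 1 * ⁅v x, (1 : G)⁆ = v x
    simp
  neg_add_cancel x := by
    show (v x)⁻¹ * v x * ⁅(v x)⁻¹, v x⁆ = 1
    simp [commutatorElement_def]
  add_comm x y := by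
    show v x * v y * ⁅v x, v y⁆ = v y * v x * ⁅v y, v x⁆
    have h1 : v x * v y = ⁅v x, v y⁆ * (v y * v x) := by simp [commutatorElement_def]
    rw [h1, P.cen, c_inv (v x), mul_assoc, mul_right_inj, eq_inv_iff_mul_eq_one, ← P.cube ⁅v x, v y⁆]
    simp [pow_succ]

theorem v_add (x y : L G) : v (x + y) = v x * v y * ⁅v x, v y⁆ := rfl

noncomputable instance : Module (ZMod 3) (L G) := AddCommGroup.zmodModule fun x => by
  rw [three_nsmul]
  show v x * (v x * v x * ⁅v x, v x⁆) * ⁅v x, v x * v x * ⁅v x, v x⁆⁆ = 1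
  rw [← P.cube (v x)]
  simp [commutatorElement_def, pow_succ, mul_assoc]

noncomputable def D (G : Type u) [Group G] [P G] : Submodule (ZMod 3) (L G) := AddSubgroup.toZModSubmodule 3
  { carrier := {x | v x ∈ commutator G}
    add_mem' := fun {x y} hx hy => (commutator G).mul_mem (mul_mem hx hy) (cm (v x) (v y))
    zero_mem' := one_mem (commutator G)
    neg_mem' := fun hx => (commutator G).inv_mem hx }

theorem exα : ∃ α : MulAut G, ∀ x, α x * x ∈ commutator G := by
  obtain ⟨c, hc⟩ := (D G).subtype.exists_leftInverse_of_injective (D G).ker_subtype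
  have h1 : ∀ x : D G, c x.1 = x := fun x => LinearMap.congr_fun hc x
  let k : G → G := fun x => v (c (l x)).1
  have k0 : ∀ x, k x ∈ commutator G := fun x => (c (l x)).2
  have k1 : ∀ x ∈ commutator G, k x = x := fun x hx => congrArg Subtype.val (h1 ⟨l x, hx⟩)
  have k2 : ∀ x y, k (x * y * ⁅x, y⁆) = k x * k y := fun x y => by
    have := congrArg (fun z : D G => v z.1) (map_add c (l x) (l y))
    refine this.trans ?_
    show k x * k y * ⁅k x, k y⁆ = _
    rw [z_c (k0 x), mul_one]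
  have k3 : ∀ x y, k (x * y) = k x * k y * ⁅x, y⁆⁻¹ := fun x y => by
    rw [← k2, ← k1 _ (inv_mem (cm x y)), ← k2, c_z (inv_mem (cm x y)), mul_one,
      mul_inv_cancel_right]
  have kc : ∀ x y, y * k x = k x * y := fun x y => Subgroup.mem_center_iff.1 (hZ (k0 x)) y
  let f : G →* G := MonoidHom.mk' (fun x => x⁻¹ * (k x)⁻¹) fun x y => by
    have h : x * y = ⁅x, y⁆ * (y * x) := by simp [commutatorElement_def]
    apply inv_injective
    simp only [mul_inv_rev, inv_inv]
    rw [k3, h, mul_assoc, inv_mul_cancel_left, ← mul_assoc (k y * y), mul_assoc (k y), kc x y,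
      kc x (k y) |>.symm]
    simp only [mul_assoc]
  have hf : Function.Involutive f := fun x => by
    have k4 : k x⁻¹ = (k x)⁻¹ := congrArg (fun z : D G => v z.1) (map_neg c (l x))
    show (x⁻¹ * (k x)⁻¹)⁻¹ * (k (x⁻¹ * (k x)⁻¹))⁻¹ = x
    rw [k3, c_z (inv_mem (k0 x)), k4, k1 _ (inv_mem (k0 x))]
    simp only [mul_inv_rev, inv_inv, inv_one, one_mul]
    rw [← kc, mul_assoc, ← mul_assoc (k x), ← pow_three', P.cube, mul_one]
  refine ⟨MulEquiv.ofBijective f hf.bijective, fun x => ?_⟩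
  show x⁻¹ * (k x)⁻¹ * x ∈ _
  exact (Subgroup.commutator_normal ⊤ ⊤).conj_mem' _ (inv_mem (k0 x)) x

theorem integ : Integrable G := by
  obtain ⟨α, hα⟩ := exα (G := G)
  let φ : Multiplicative (ULift.{u} ℤ) →* MulAut G :=
    (zpowersHom _ α).comp (AddMonoidHom.toMultiplicative AddEquiv.ulift.toAddMonoidHom)
  have : commutator (G ⋊[φ] Multiplicative (ULift.{u} ℤ)) = SemidirectProduct.inl.range := by
    apply le_antisymm
    · rw [SemidirectProduct.range_inl_eq_ker_rightHom]
      exact Abelianization.commutator_subset_ker _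
    · rintro _ ⟨x, rfl⟩
      have h1 : (commutator G).map SemidirectProduct.inl ≤
          commutator (G ⋊[φ] Multiplicative (ULift.{u} ℤ)) := by
        rw [commutator_def, Subgroup.map_commutator]
        exact Subgroup.commutator_mono le_top le_top
      have h2 := Subgroup.commutator_mem_commutator (Subgroup.mem_top
        (SemidirectProduct.inr (.ofAdd ⟨1⟩) : G ⋊[φ] Multiplicative (ULift.{u} ℤ)))
        (Subgroup.mem_top (SemidirectProduct.inl x))
      rw [commutatorElement_def, ← map_inv, ← SemidirectProduct.inl_aut, ← map_inv, ← map_mul] at h2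
      have h4 : φ (.ofAdd ⟨1⟩) = α := zpow_one α
      have h6 := mul_mem (inv_mem (h1 ⟨_, hα x, rfl⟩)) h2
      rw [h4, ← map_inv, ← map_mul] at h6
      convert h6 using 2
      rw [mul_inv_rev, mul_assoc, inv_mul_cancel_left, eq_mul_inv_iff_mul_eq, eq_inv_iff_mul_eq_one,
        ← P.cube x]
      simp [pow_succ]
  exact ⟨_, inferInstance, ⟨(MulEquiv.subgroupCongr this).trans
    (MonoidHom.ofInjective SemidirectProduct.inl_injective).symm⟩⟩

end

/-- The Heisenberg group over `ZMod 3`. -/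
@[ext] structure He where
  a : ZMod 3
  b : ZMod 3
  c : ZMod 3
deriving DecidableEq, Fintype

instance : Group He where
  mul x y := ⟨x.a + y.a, x.b + y.b, x.c + y.c + x.a * y.b⟩
  one := ⟨0, 0, 0⟩
  inv x := ⟨-x.a, -x.b, x.a * x.b - x.c⟩
  mul_assoc x y z := He.ext (add_assoc _ _ _) (add_assoc _ _ _) (by
    show x.c + y.c + x.a * y.b + z.c + (x.a + y.a) * z.b =
      x.c + (y.c + z.c + y.a * z.b) + x.a * (y.b + z.b)
    ring)
  one_mul := by decide
  mul_one := by decide
  inv_mul_cancel := by decide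

theorem result : ∃ W : Set (FreeGroup ℕ),
    (∃ (G : Type) (_ : Group G), Sat W G ∧ ∃ x y : G, x * y ≠ y * x) ∧
      ∀ (G : Type u) [Group G], Sat W G → Integrable G := by
  refine ⟨W, ⟨He, inferInstance, ?_, ⟨1, 0, 0⟩, ⟨0, 1, 0⟩, by decide⟩, fun G _ h => ?_⟩
  · have h1 : ∀ x : He, x ^ 3 = 1 := by decide
    have h2 : ∀ x y : He, ⁅x, y⁆.a = 0 ∧ ⁅x, y⁆.b = 0 := by decide +kernel
    have h3 : ∀ x z : He, x.a = 0 ∧ x.b = 0 → ⁅x, z⁆ = 1 := by decide +kernel
    rintro _ (rfl | rfl) f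
    · simp [h1]
    · simp [map_commutatorElement, h3 _ _ (h2 _ _)]
  · have : P G := ⟨fun x => by simpa using h _ (Or.inl rfl) fun _ => x, fun x y z => by
      have := h _ (Or.inr rfl) fun n => if n = 0 then x else if n = 1 then y else z
      simpa [map_commutatorElement, commutatorElement_eq_one_iff_mul_comm] using this⟩
    exact integ

end Pool.Agent.Results.MP_fbf3cb_al.Var
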